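import Pool.Agent.MP49fec2.Defs
import Pool.Agent.MP49fec2.Proof

set_option autoImplicit false

namespace Pool.Agent.Results.MP_49fec2_al.NotResidually

open Pool.Agent.MP49fec2

/-- There is a variety of groups (given by its set of laws `L`) which is generated by its
relatively free group of rank `2`, while its relatively free group of rank `3` is not
residually `2`-generator. -/
theorem result : ∃ L : Set (FreeGroup ℕ),
    Generates L (RelFree L 2) ∧ ¬ ResiduallyGen 2 (RelFree L 3) :=
  ⟨L, generates, not_residual⟩

end Pool.Agent.Results.MP_49fec2_al.NotResidually
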